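import Pool.Agent.H13.DEV.Targets
import Pool.Agent.H34.N6.LibC
import Pool.Agent.H12.QC.I4

/-!
# Block E, row ELTG: targets at the places where `κ` is no unit
-/

set_option autoImplicit false

open Polynomial NumberField IsDedekindDomain Pool.Agent.H32.QC Pool.Agent.H34.N6 Pool.Agent.H13.DEV

namespace Pool.Agent.H83.N6E

theorem ultra {L : Type} [Field L] [NumberField L] (w : FPl L) :
    IsUltrametricDist (w.adicCompletion L) := by
  infer_instance

theorem norm_ic_one {L : Type} [Field L] [NumberField L] (w : FPl L) (x : L)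
    (hx : w.valuation L x = 1) : ‖ic w x‖ = 1 := by
  apply le_antisymm
  · exact (norm_ic_le_one_iff w x).2 hx.le
  · have h1 : ‖ic w x⁻¹‖ ≤ 1 := (norm_ic_le_one_iff w _).2 (by rw [map_inv₀, hx, inv_one])
    rw [map_inv₀, norm_inv] at h1
    have h2 : 0 < ‖ic w x‖ := by
      rw [norm_pos_iff]
      intro h
      have h3 : x = 0 := (map_eq_zero (ic w)).1 h
      rw [h3, map_zero] at hx
      exact zero_ne_one hx
    exact (inv_le_one₀ h2).1 h1

theorem exists_val {L : Type} [Field L] [NumberField L] (w : FPl L) (m : ℤ) :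
    ∃ a : L, w.valuation L a = WithZero.exp m := by
  obtain ⟨x, hx⟩ := w.valuation_exists_uniformizer L
  refine ⟨x ^ (-m), ?_⟩
  rw [map_zpow₀, hx, ← WithZero.exp_zsmul]
  congr 1
  simp

theorem pf_LTG : T_LTG := by
  intro L _ _ w κ δ hκ hδ hval
  haveI := ultra w
  by_cases hsq : IsSquare (ic w δ)
  · -- small balls around zero
    set c : ℝ := ‖ic w κ‖ with hc
    have hc0 : 0 ≤ c := norm_nonneg _
    have hr : 0 < 1 / (1 + c) := by positivity
    refine ⟨0, 0, Metric.ball 0 (1 / (1 + c)), Metric.ball 0 (1 / (1 + c)),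
      Metric.ball_mem_nhds _ hr, Metric.ball_mem_nhds _ hr, ?_⟩
    intro x hx y hy
    refine ⟨?_, fun h => absurd hsq h⟩
    rw [mem_ball_zero_iff] at hx hy
    have h1 : ‖x ^ 2 - ic w δ * y ^ 2‖ ≤ 1 / (1 + c) := by
      rw [sub_eq_add_neg]
      refine (IsUltrametricDist.norm_add_le_max _ _).trans ?_
      rw [norm_neg]
      have hr1 : 1 / (1 + c) ≤ 1 := by
        rw [div_le_one (by positivity)]; linarith
      apply max_le
      · rw [norm_pow]
        have : ‖x‖ ^ 2 ≤ (1 / (1 + c)) ^ 2 := pow_le_pow_left₀ (norm_nonneg _) hx.le 2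
        nlinarith
      · rw [norm_mul, hδ, one_mul, norm_pow]
        have : ‖y‖ ^ 2 ≤ (1 / (1 + c)) ^ 2 := pow_le_pow_left₀ (norm_nonneg _) hy.le 2
        nlinarith
    rw [norm_mul]
    calc ‖ic w κ‖ * ‖x ^ 2 - ic w δ * y ^ 2‖ ≤ c * (1 / (1 + c)) :=
          mul_le_mul_of_nonneg_left h1 hc0
      _ ≤ 1 := by
          rw [mul_one_div, div_le_one (by positivity)]; linarith
  · obtain ⟨m, hm⟩ := hval hsq
    obtain ⟨a, ha⟩ := exists_val w (-m)
    have h1 : ‖ic w (κ * a ^ 2)‖ = 1 := by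
      apply norm_ic_one
      rw [map_mul, map_pow, hm, ha, ← WithZero.exp_nsmul, ← WithZero.exp_add]
      rw [← WithZero.exp_zero]
      congr 1
      simp
    have ha0 : ic w a ≠ 0 := by
      intro h
      rw [map_mul, map_pow, h] at h1
      simp at h1
    have hn0 : 0 < ‖ic w a‖ := norm_pos_iff.2 ha0
    refine ⟨ic w a, 0, Metric.ball (ic w a) ‖ic w a‖, Metric.ball 0 ‖ic w a‖,
      Metric.ball_mem_nhds _ hn0, Metric.ball_mem_nhds _ hn0, ?_⟩
    intro x hx y hy
    rw [mem_ball_zero_iff] at hy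
    rw [mem_ball_iff_norm] at hx
    have hxn : ‖x‖ = ‖ic w a‖ := by
      have h2 : ‖(x - ic w a) + ic w a‖ = max ‖x - ic w a‖ ‖ic w a‖ :=
        IsUltrametricDist.norm_add_eq_max_of_norm_ne_norm hx.ne
      rw [sub_add_cancel, max_eq_right hx.le] at h2
      exact h2
    have hlt : ‖ic w δ * y ^ 2‖ < ‖x ^ 2‖ := by
      rw [norm_mul, hδ, one_mul, norm_pow, norm_pow, hxn]
      exact pow_lt_pow_left₀ hy (norm_nonneg _) two_ne_zero
    have h3 : ‖x ^ 2 - ic w δ * y ^ 2‖ = ‖x ^ 2‖ := by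
      rw [sub_eq_add_neg, IsUltrametricDist.norm_add_eq_max_of_norm_ne_norm, norm_neg,
        max_eq_left hlt.le]
      rw [norm_neg]
      exact hlt.ne'
    have h4 : ‖ic w κ * (x ^ 2 - ic w δ * y ^ 2)‖ = 1 := by
      rw [norm_mul, h3, norm_pow, hxn, ← norm_pow, ← norm_mul, ← map_pow, ← map_mul]
      exact h1
    exact ⟨h4.le, fun _ => h4⟩

end Pool.Agent.H83.N6E
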